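import Pool.Agent.H30.ZO.Ja
import Pool.Agent.H30.ZO.Jb
import Pool.Agent.H36.CY.Df
import Pool.Agent.H24.PD.Main
import Pool.Agent.H30.CY.Inf
import Pool.Agent.H73.P2.Hf

/-!
The local condition in terms of classes of `H^1(k, E)[2]` (project MP_78d38b, ZeroOneLaw; no row).
-/

set_option autoImplicit false
set_option linter.unusedSectionVars false
open scoped Classical

open WeierstrassCurve NumberField IsDedekindDomain Pool.Agent.H10 H76PP H24PD H36CY

namespace H36ZO

/-- The cocycle `f` of the curve `V` over `k` becomes a coboundary over the extension `L` of `k`. -/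
def TrOv (k L : Type) [Field k] [NumberField k] [Field L] [Algebra k L] (V : WeierstrassCurve k)
    (f : (AlgebraicClosure k ≃ₐ[k] AlgebraicClosure k) →
      (V.baseChange (AlgebraicClosure k)).toAffine.Point) : Prop :=
  ∀ ι : AlgebraicClosure k →ₐ[k] AlgebraicClosure L,
    ∃ P : (V.baseChange (AlgebraicClosure L)).toAffine.Point,
    ∀ τ : AlgebraicClosure L ≃ₐ[L] AlgebraicClosure L,
    ∀ σ : AlgebraicClosure k ≃ₐ[k] AlgebraicClosure k,
      (τ.toAlgHom.restrictScalars k).comp ι = ι.comp σ.toAlgHom →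
      (WeierstrassCurve.Affine.Point.map ι :
        (V.baseChange (AlgebraicClosure k)).toAffine.Point →+
          (V.baseChange (AlgebraicClosure L)).toAffine.Point) (f σ) =
        (WeierstrassCurve.Affine.Point.map (τ.toAlgHom.restrictScalars k) :
          (V.baseChange (AlgebraicClosure L)).toAffine.Point →+
            (V.baseChange (AlgebraicClosure L)).toAffine.Point) P - P

theorem trOv_iff {k L : Type} [Field k] [NumberField k] [Field L] [Algebra k L]
    {V : WeierstrassCurve k} {f : Coch k V} : TrOv k L V f ↔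
      ∀ ι : AlgebraicClosure k →ₐ[k] AlgebraicClosure L, TrivAt (F := L) (inv_bc' V)
        (ι : AlgebraicClosure k →+* AlgebraicClosure L) (map_bc V ι) f :=
  forall_congr' fun ι => locTriv_aux f ι

/-- The algebra structure of the completion over the subfield. -/
noncomputable abbrev algC (k k' : Type) [Field k] [Field k'] [NumberField k'] [Algebra k k']
    (w : HeightOneSpectrum (𝓞 k')) : Algebra k (w.adicCompletion k') :=
  ((algebraMap k' (w.adicCompletion k')).comp (algebraMap k k')).toAlgebra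

/-- The local condition at the prime `v` of `K`: for all number fields `k ≤ k'` between `K` and `F` with
`[k' : k] = 2`, every class of `H^1(k, E)[2]` which is trivial over the completions of `k'` at the
places above `v` is trivial over the completions of `k` at the places above `v`. -/
def LocC (K F : Type) [Field K] [NumberField K] [Field F] [Algebra K F]
    (v : HeightOneSpectrum (𝓞 K)) (a b : K) : Prop :=
  ∀ (k k' : Type) [Field k] [NumberField k] [Field k'] [NumberField k'] [Algebra K k] [Algebra K k']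
    [Algebra k k'] [IsScalarTower K k k'] [Algebra k' F] [IsScalarTower K k' F],
    Module.finrank k k' = 2 → ∀ f : Coch k (⟨0, 0, 0, algebraMap K k a, algebraMap K k b⟩ :
      WeierstrassCurve k),
    IsCocycle k _ f → IsCobound k _ (fun σ => 2 • f σ) →
    (∀ w : HeightOneSpectrum (𝓞 k'), dn K w = v →
      @TrOv k (w.adicCompletion k') _ _ _ (algC k k' w) _ f) →
    ∀ u : HeightOneSpectrum (𝓞 k), dn K u = v → TrOv k (u.adicCompletion k) _ f

section Kummer

variable {k L : Type} [Field k] [NumberField k] [Field L] [NumberField L] [Algebra k L] {a b : k}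
  {θ : L}

/-- The element attached to a cocycle killed by two. -/
theorem exists_d (hL : Cub k L a b θ) {f : Coch k (⟨0, 0, 0, a, b⟩ : WeierstrassCurve k)}
    (hf : IsCocycle k _ f) (h2 : ∀ σ, f σ + f σ = 0) :
    ∃ (d : Fin 3 → k) (r : (L →ₐ[k] AlgebraicClosure k) → AlgebraicClosure k),
      ev θ d ≠ 0 ∧ IsSquare (Algebra.norm k (ev θ d)) ∧ (∀ φ, r φ ≠ 0) ∧
      (∀ σ φ, σ (r φ) = ((wp (mv σ φ θ) (f σ) : ℤ) : AlgebraicClosure k) * r (mv σ φ)) ∧
      ∀ φ, r φ ^ 2 = φ (ev θ d) := by
  obtain ⟨hfd, hfr⟩ := fin3 hL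
  have hfd' : FiniteDimensional k L := hfd
  obtain ⟨φ₁, φ₂, φ₃, h12, h13, h23, hall⟩ := emb3 (Ω := AlgebraicClosure k) hL
  have hE : IsCub ((⟨0, 0, 0, a, b⟩ : WeierstrassCurve k).baseChange (AlgebraicClosure k))
      (φ₁ θ) (φ₂ θ) (φ₃ θ) :=
    isCub_of (a := algebraMap k (AlgebraicClosure k) a) (b := algebraMap k (AlgebraicClosure k) b)
      (map_zero (algebraMap k (AlgebraicClosure k))) (map_zero (algebraMap k (AlgebraicClosure k)))
      (map_zero (algebraMap k (AlgebraicClosure k))) rfl rfl two_ne_zero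
      (emb_root hL φ₁) (emb_root hL φ₂) (emb_root hL φ₃) (fun h => h12 (emb_ext hL h))
      (fun h => h13 (emb_ext hL h)) (fun h => h23 (emb_ext hL h))
  have hcoc := (isCocycle_iff f).1 hf
  have hth : ∀ φ : L →ₐ[k] AlgebraicClosure k, φ θ = φ₁ θ ∨ φ θ = φ₂ θ ∨ φ θ = φ₃ θ := by
    intro φ
    rcases hall φ with h | h | h
    · exact Or.inl (by rw [h])
    · exact Or.inr (Or.inl (by rw [h]))
    · exact Or.inr (Or.inr (by rw [h]))
  have hprod : ∀ F : (L →ₐ[k] AlgebraicClosure k) → ℤˣ, ∏ φ, F φ = F φ₁ * F φ₂ * F φ₃ := by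
    intro F
    have huniv : (Finset.univ : Finset (L →ₐ[k] AlgebraicClosure k)) = {φ₁, φ₂, φ₃} := by
      ext φ
      simp only [Finset.mem_univ, Finset.mem_insert, Finset.mem_singleton, true_iff]
      exact hall φ
    rw [huniv, Finset.prod_insert, Finset.prod_insert, Finset.prod_singleton, mul_assoc]
    · simp only [Finset.mem_singleton]
      exact h23
    · simp only [Finset.mem_insert, Finset.mem_singleton, not_or]
      exact ⟨h12, h13⟩
  obtain ⟨r, δ, hr, he, hd, hδ, hsq⟩ := sd (K := k) (L := L) (Ω := AlgebraicClosure k)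
    (fun σ φ => wp (φ θ) (f σ)) (fun φ => hcoc.1.comp (wp (φ θ))) (fun σ τ φ => by
      rw [hcoc.2 σ τ, wp_add hE (hth _) (h2 σ) (by rw [← map_add, h2, map_zero])]
      congr 1
      exact wp_pm (σ : AlgebraicClosure k →+* AlgebraicClosure k) (inv_bc k _ σ) (φ θ) (f τ))
    (fun σ => by
      rw [hprod]
      exact wp_prod hE (h2 σ))
  obtain ⟨c₀, c₁, c₂, hδe⟩ := hL.sp δ
  have hev : ev θ ![c₀, c₁, c₂] = δ := hδe.symm
  refine ⟨![c₀, c₁, c₂], r, by rw [hev]; exact hδ, by rw [hev]; exact hsq, hr, he, fun φ => ?_⟩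
  rw [hev]
  exact hd φ

/-- Modification by a coboundary. -/
theorem exists_two {V : WeierstrassCurve k} [V.IsElliptic] {f : Coch k V} (hf : IsCocycle k V f)
    (h2 : IsCobound k V (fun σ => 2 • f σ)) :
    ∃ g : Coch k V, IsCocycle k V g ∧ (∀ σ, g σ + g σ = 0) ∧
      ∀ (F : Type) [Field F] [Algebra k F], TrOv k F V f ↔ TrOv k F V g := by
  obtain ⟨Q, hQ⟩ := (isCobound_iff _).1 h2
  obtain ⟨R, hR⟩ := Pool.Agent.H11.smul_surjective (V.baseChange (AlgebraicClosure k)) 2
    (by norm_num) Q
  rw [two_nsmul] at hR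
  have hcf := (isCocycle_iff f).1 hf
  have hcR := isCoc_cob (inv_bc k V) R
  refine ⟨fun σ => f σ + -(act (inv_bc k V) σ R - R), (isCocycle_iff _).2 (hcf.add hcR.neg),
    fun σ => ?_, fun F _ _ => ?_⟩
  · have h1 : f σ + -(act (inv_bc k V) σ R - R) + (f σ + -(act (inv_bc k V) σ R - R)) =
        (f σ + f σ) - (act (inv_bc k V) σ (R + R) - (R + R)) := by
      rw [map_add]
      abel
    have h3 : f σ + f σ = act (inv_bc k V) σ Q - Q := by
      rw [← hQ σ, two_nsmul]
    rw [h1, hR, h3, sub_self]
  · rw [trOv_iff, trOv_iff]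
    constructor
    · intro h ι
      exact (h ι).add (trivAt_cob (inv_bc' V) (ι : AlgebraicClosure k →+* AlgebraicClosure F)
        (map_bc V ι) R).neg
    · intro h ι
      have h1 := (h ι).add (trivAt_cob (h := inv_bc k V) (inv_bc' V)
        (ι : AlgebraicClosure k →+* AlgebraicClosure F) (map_bc V ι) R)
      have h4 : (fun σ => f σ + -(act (inv_bc k V) σ R - R) + (act (inv_bc k V) σ R - R)) = f := by
        funext σ
        abel
      rw [h4] at h1
      exact h1

/-- Local triviality in terms of the element. -/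
theorem trOv_iff_LC (hL : Cub k L a b θ) {f : Coch k (⟨0, 0, 0, a, b⟩ : WeierstrassCurve k)}
    (h2 : ∀ σ, f σ + f σ = 0) {d : Fin 3 → k}
    {r : (L →ₐ[k] AlgebraicClosure k) → AlgebraicClosure k} (hr : ∀ φ, r φ ≠ 0)
    (he : ∀ σ φ, σ (r φ) = ((wp (mv σ φ θ) (f σ) : ℤ) : AlgebraicClosure k) * r (mv σ φ))
    (hd : ∀ φ, r φ ^ 2 = φ (ev θ d)) {F : Type} [Field F] [Algebra k F]
    (hinf : Infinite ((⟨0, 0, 0, a, b⟩ : WeierstrassCurve k).baseChange F).toAffine.Point) :
    TrOv k F _ f ↔ LC (algebraMap k F) a b d := by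
  rw [trOv_iff]
  constructor
  · intro h
    obtain ⟨ι⟩ := exists_embedding k F
    exact lo hL hinf h2 hr he hd ι (h ι)
  · intro h ι
    exact H30ZO.triv_of_LC hL h2 hr he hd h ι

theorem bc_eq {k F : Type} [Field k] [Field F] [Algebra k F] (a b : k) :
    (⟨0, 0, 0, a, b⟩ : WeierstrassCurve k).baseChange F =
      ⟨0, 0, 0, algebraMap k F a, algebraMap k F b⟩ := by
  unfold WeierstrassCurve.baseChange WeierstrassCurve.map
  simp only [map_zero]

/-- Infinitely many points over the completion. -/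
theorem inf_bc {k' : Type} [Field k'] [NumberField k'] (w : HeightOneSpectrum (𝓞 k'))
    [Algebra k (w.adicCompletion k')] (a b : k) :
    Infinite ((⟨0, 0, 0, a, b⟩ : WeierstrassCurve k).baseChange
      (w.adicCompletion k')).toAffine.Point := by
  rw [bc_eq]
  exact inf_fin w _ _

end Kummer

section Main

variable {K F : Type} [Field K] [NumberField K] [Field F] [Algebra K F]

/-- The two forms of the local condition over the larger field. -/
theorem LC_comp {k k' : Type} [Field k] [NumberField k] [Field k'] [NumberField k'] [Algebra K k]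
    [Algebra K k'] [Algebra k k'] [IsScalarTower K k k'] (w : HeightOneSpectrum (𝓞 k')) (a b : K)
    (d : Fin 3 → k) :
    LC (@algebraMap k (w.adicCompletion k') _ _ (algC k k' w)) (algebraMap K k a)
      (algebraMap K k b) d ↔ LC (algebraMap k' (w.adicCompletion k')) (algebraMap K k' a)
      (algebraMap K k' b) (fun i => algebraMap k k' (d i)) := by
  rw [IsScalarTower.algebraMap_apply K k k' a, IsScalarTower.algebraMap_apply K k k' b]
  exact Iff.rfl

/-- Descent for classes. -/
theorem locC_of_descAt [IsGalois K F] {v : HeightOneSpectrum (𝓞 K)} {a b : K}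
    (hdeg : ∀ (N : IntermediateField K F) [NumberField N], IsGalois K N →
      ∃ r : ℕ, Module.finrank K N = 2 ^ r)
    (hirr : ∀ t : K, t ^ 3 + a * t + b ≠ 0)
    (h : ∀ (N : IntermediateField K F) [NumberField N], IsGalois K N → DescAt K N v a b) :
    LocC K F v a b := by
  intro k k' _ _ _ _ _ _ _ _ _ _ h2 f hf hf2 hw u hu
  -- a Galois extension that contains `k'`
  obtain ⟨M, hM⟩ : ∃ M : IntermediateField K F, M = (IsScalarTower.toAlgHom K k' F).fieldRange :=
    ⟨_, rfl⟩
  have hk'f : FiniteDimensional K k' := Module.Finite.of_restrictScalars_finite ℚ K k'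
  have hMf : FiniteDimensional K M := by
    rw [hM]
    exact LinearMap.finiteDimensional_range (IsScalarTower.toAlgHom K k' F).toLinearMap
  have hMn : NumberField M := NumberField.of_module_finite K M
  obtain ⟨N, _, hN, hMN, -⟩ := H30CY.exists_big M (∅ : Finset Unit) (fun _ => ⊥)
    (fun i hi => absurd hi (Finset.notMem_empty i))
  obtain ⟨r, hr⟩ := hdeg N hN
  have hNf : FiniteDimensional K N := Module.Finite.of_restrictScalars_finite ℚ K N
  have hmem : ∀ x : k', algebraMap k' F x ∈ N := by
    intro x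
    apply hMN
    rw [hM]
    exact ⟨x, rfl⟩
  let _ : Algebra k' N := ((algebraMap k' F).codRestrict N.toSubfield hmem).toAlgebra
  let _ : Algebra k N := ((algebraMap k' N).comp (algebraMap k k')).toAlgebra
  have t1 : IsScalarTower K k' N := IsScalarTower.of_algebraMap_eq fun x => by
    apply Subtype.ext
    change algebraMap K F x = algebraMap k' F (algebraMap K k' x)
    exact IsScalarTower.algebraMap_apply K k' F x
  have t2 : IsScalarTower k k' N := IsScalarTower.of_algebraMap_eq fun x => rfl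
  have t3 : IsScalarTower K k N := IsScalarTower.of_algebraMap_eq fun x => by
    rw [IsScalarTower.algebraMap_apply K k' N, IsScalarTower.algebraMap_apply K k k']
    rfl
  have hirrk : ∀ t : k, t ^ 3 + algebraMap K k a * t + algebraMap K k b ≠ 0 :=
    fun t => H73P2.noroot (K := K) (N := N) (k := k) hr hirr t
  obtain ⟨L, _, _, _, θ, hL⟩ := exists_cub hirrk
  have := elliptic hL
  obtain ⟨g, hg, hg2, hfg⟩ := exists_two hf hf2
  obtain ⟨d, s, hd0, hsq, hs0, he, hd⟩ := exists_d hL hg hg2
  have key := h N hN k k' h2 d (by rw [← Te_norm hL]; exact Algebra.norm_ne_zero_iff.2 hd0)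
    (by rw [← Te_norm hL]; exact hsq) (fun w hwv => ?_) u hu
  · rw [hfg, trOv_iff_LC hL hg2 hs0 he hd (inf_bc u _ _)]
    exact key
  · have h3 := hw w hwv
    rw [← LC_comp]
    let _ : Algebra k (w.adicCompletion k') := algC k k' w
    exact (trOv_iff_LC hL hg2 hs0 he hd (inf_bc w _ _)).1 ((hfg _).1 h3)

/-- The converse. -/
theorem descAt_of_locC {v : HeightOneSpectrum (𝓞 K)} {a b : K}
    (hdeg : ∀ (N : IntermediateField K F) [NumberField N], IsGalois K N →
      ∃ r : ℕ, Module.finrank K N = 2 ^ r)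
    (hirr : ∀ t : K, t ^ 3 + a * t + b ≠ 0) (h : LocC K F v a b) :
    ∀ (N : IntermediateField K F) [NumberField N], IsGalois K N → DescAt K N v a b := by
  intro N _ hN k k' _ _ _ _ _ _ _ _ _ _ _ _ _ h2 d hd0 hsq hw u hu
  obtain ⟨r, hr⟩ := hdeg N hN
  have hNf : FiniteDimensional K N := Module.Finite.of_restrictScalars_finite ℚ K N
  let _ : Algebra k' F := ((algebraMap N F).comp (algebraMap k' N)).toAlgebra
  have t1 : IsScalarTower K k' F := IsScalarTower.of_algebraMap_eq fun x => by
    change algebraMap N F (algebraMap K N x) = algebraMap N F (algebraMap k' N (algebraMap K k' x))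
    rw [← IsScalarTower.algebraMap_apply K k' N]
  have hirrk : ∀ t : k, t ^ 3 + algebraMap K k a * t + algebraMap K k b ≠ 0 :=
    fun t => H73P2.noroot (K := K) (N := N) (k := k) hr hirr t
  obtain ⟨L, _, _, _, θ, hL⟩ := exists_cub hirrk
  rw [← Te_norm hL] at hd0 hsq
  obtain ⟨f, s, hf, hf2, hs0, he, hd⟩ := H30ZO.exists_coc hL (fun h0 => hd0 (by
    rw [h0]
    obtain ⟨_, _⟩ := fin3 hL
    exact Algebra.norm_zero)) hsq
  have key := h k k' h2 f hf ((isCobound_iff _).2 ⟨0, fun σ => by
    rw [map_zero, sub_zero, two_nsmul, hf2]⟩) (fun w hwv => ?_) u hu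
  · exact (trOv_iff_LC hL hf2 hs0 he hd (inf_bc u _ _)).1 key
  · have h3 := hw w hwv
    rw [← LC_comp] at h3
    let _ : Algebra k (w.adicCompletion k') := algC k k' w
    exact (trOv_iff_LC hL hf2 hs0 he hd (inf_bc w _ _)).2 h3

end Main

end H36ZO
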