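import Pool.Agent.H36.ZO.Fin
import Pool.Agent.H73.ZO.Gd

/-!
Primes of good reduction which are unramified in `F` (project MP_78d38b, ZeroOneLaw; no row).
-/

set_option autoImplicit false
set_option linter.unusedSectionVars false
open scoped Classical

open WeierstrassCurve NumberField IsDedekindDomain Pool.Agent.H10 H76PP H36CY

namespace H36ZO

theorem descAt_good {K N : Type} [Field K] [NumberField K] [Field N] [NumberField N] [Algebra K N]
    {r : ℕ} (hr : Module.finrank K N = 2 ^ r) {v : HeightOneSpectrum (𝓞 K)}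
    (h2 : (2 : 𝓞 K) ∉ v.asIdeal)
    (hu : ∀ V : HeightOneSpectrum (𝓞 N), dn K V = v → ¬ H73P2.Ram K V)
    {a b : 𝓞 K} (hirr : ∀ t : K, t ^ 3 + (a : K) * t + (b : K) ≠ 0) (hd : dsc a b ∉ v.asIdeal) :
    DescAt K N v (a : K) (b : K) :=
  H73ZO.descAt_good hr h2 hu hirr hd

section

variable {K F : Type} [Field K] [NumberField K] [Field F] [Algebra K F] [IsGalois K F]

/-- A pair in the residue class of `q` modulo `m` with an irreducible polynomial. -/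
theorem exists_near {Z : Set (HeightOneSpectrum (𝓞 K))} (hZ : Z.Infinite) {m : Ideal (𝓞 K)}
    (hm : m ≠ ⊥) (q : 𝓞 K × 𝓞 K) : ∃ p : 𝓞 K × 𝓞 K, p.1 - q.1 ∈ m ∧ p.2 - q.2 ∈ m ∧
      ∀ t : K, t ^ 3 + (p.1 : K) * t + (p.2 : K) ≠ 0 := by
  have hfin : {v : HeightOneSpectrum (𝓞 K) | m ≤ v.asIdeal}.Finite :=
    (Ideal.finite_factors (I := m) hm).subset fun v hv => Ideal.dvd_iff_le.2 hv
  obtain ⟨w, -, hw⟩ := hZ.exists_notMem_finset hfin.toFinset
  have hw' : ¬ m ≤ w.asIdeal := fun h => hw (hfin.mem_toFinset.2 h)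
  have hmax := w.isMaximal
  obtain ⟨x, hx, y, hy, hxy⟩ : ∃ x ∈ m, ∃ y ∈ w.asIdeal, x + y = 1 := by
    have h1 : m ⊔ w.asIdeal = ⊤ := by
      by_contra h1
      have h3 := hmax.eq_of_le h1 le_sup_right
      apply hw'
      rw [h3]
      exact le_sup_left
    exact Submodule.mem_sup.1 (by rw [h1]; exact trivial)
  obtain ⟨b, hb⟩ := H30PN.Rm_noroot w
  refine ⟨(q.1 + x * (-1 - q.1), q.2 + x * (b - q.2)), ?_, ?_, ?_⟩
  · change q.1 + x * (-1 - q.1) - q.1 ∈ m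
    rw [add_sub_cancel_left]
    exact Ideal.mul_mem_right _ _ hx
  · change q.2 + x * (b - q.2) - q.2 ∈ m
    rw [add_sub_cancel_left]
    exact Ideal.mul_mem_right _ _ hx
  · refine noroot_K (w := w) fun t ht => hb t ?_
    have e : t ^ 3 - t + b = (t ^ 3 + (q.1 + x * (-1 - q.1)) * t + (q.2 + x * (b - q.2))) -
        y * ((q.1 + 1) * t + (q.2 - b)) := by
      have h1 : y = 1 - x := by rw [← hxy]; ring
      rw [h1]
      ring
    rw [e]
    exact Ideal.sub_mem _ ht (Ideal.mul_mem_right _ _ hy)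

/-- The local condition at the odd primes of good reduction which are unramified in `F`. -/
theorem exists_good (h : H30ZO.AdmF K F) {m : Ideal (𝓞 K)} (hm : m ≠ ⊥)
    {v : HeightOneSpectrum (𝓞 K)} (hmv : m ≤ v.asIdeal) (h2 : (2 : 𝓞 K) ∉ v.asIdeal)
    (hu : ∀ (N : IntermediateField K F) [NumberField N] (V : HeightOneSpectrum (𝓞 N)),
      dn K V = v → ¬ H73P2.Ram K V) {q : 𝓞 K × 𝓞 K} (hq : dsc q.1 q.2 ∉ v.asIdeal) :
    ∃ p : 𝓞 K × 𝓞 K, (∀ n : ℕ, m ≤ v.asIdeal ^ n → p.1 - q.1 ∈ v.asIdeal ^ n ∧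
      p.2 - q.2 ∈ v.asIdeal ^ n) ∧ (∀ t : K, t ^ 3 + (p.1 : K) * t + (p.2 : K) ≠ 0) ∧
      LocC K F v (p.1 : K) (p.2 : K) := by
  obtain ⟨p, h1, h3, h4⟩ := exists_near h.spl_inf hm q
  refine ⟨p, fun n hn => ⟨hn h1, hn h3⟩, h4, locC_of_descAt h.deg h4 fun N _ hN => ?_⟩
  obtain ⟨r, hr⟩ := h.deg N hN
  refine descAt_good hr h2 (hu N) h4 fun h5 => hq ?_
  have e : dsc q.1 q.2 = dsc p.1 p.2 - ((p.1 - q.1) *
      (4 * (p.1 ^ 2 + p.1 * q.1 + q.1 ^ 2)) + (p.2 - q.2) * (27 * (p.2 + q.2))) := by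
    unfold dsc
    ring
  rw [e]
  exact Ideal.sub_mem _ h5 (Ideal.add_mem _ (Ideal.mul_mem_right _ _ (hmv h1))
    (Ideal.mul_mem_right _ _ (hmv h3)))

end

end H36ZO
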