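import Pool.Agent.H36.ZO.Coh
import Pool.Agent.H30.ZO.Zo

/-!
Final assembly for the zero-one law and the local-global principle (project MP_78d38b, ZeroOneLaw; no
row).
-/

set_option autoImplicit false
set_option linter.unusedSectionVars false
open scoped Classical

open WeierstrassCurve NumberField IsDedekindDomain Pool.Agent.H10 H76PP H36CY

namespace H36ZO

/-- The pair `(A, B)` defines an elliptic curve which has finitely many points, no point of order two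
and trivial two-primary part of the Tate-Shafarevich group over all number fields between `K` and
`F`. -/
def Gd (K F : Type) [Field K] [NumberField K] [Field F] [Algebra K F] (p : 𝓞 K × 𝓞 K) : Prop :=
  4 * p.1 ^ 3 + 27 * p.2 ^ 2 ≠ 0 ∧ ∀ (M : IntermediateField K F) [NumberField M],
    H30ZO.Tv M (algebraMap K M p.1) (algebraMap K M p.2)

/-- A positive proportion of the pairs satisfies `S`. -/
def PosP (K F : Type) [Field K] [NumberField K] [Field F] [Algebra K F] (S : 𝓞 K × 𝓞 K → Prop) :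
    Prop :=
  ∃ (c X₀ : ℝ), 0 < c ∧ ∀ X : ℝ, X₀ ≤ X → ∃ G : Finset (𝓞 K × 𝓞 K),
    (∀ p ∈ G, p ∈ Bx K X ∧ S p ∧ Gd K F p ∧
      Finite (⟨0, 0, 0, algebraMap K F p.1, algebraMap K F p.2⟩ :
        WeierstrassCurve F).toAffine.Point) ∧
    (∀ p ∈ G, ∀ q ∈ G, p.1 ^ 3 * q.2 ^ 2 = q.1 ^ 3 * p.2 ^ 2 → p = q) ∧
    c * ((Bx K X).ncard : ℝ) ≤ (G.card : ℝ)

/-- The statement on a finite set of primes with prescribed residue classes. -/
def MainSig (K F : Type) [Field K] [NumberField K] [Field F] [Algebra K F] : Prop :=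
  ∀ (Sg : Finset (HeightOneSpectrum (𝓞 K))) (e : HeightOneSpectrum (𝓞 K) → ℕ)
    (A₀ B₀ : HeightOneSpectrum (𝓞 K) → 𝓞 K),
    (∀ v : HeightOneSpectrum (𝓞 K), (2 : 𝓞 K) ∈ v.asIdeal → v ∈ Sg) →
    (∀ v ∈ Sg, dsc (A₀ v) (B₀ v) ∉ v.asIdeal ^ e v ∧
      ∀ A B : 𝓞 K, A - A₀ v ∈ v.asIdeal ^ e v → B - B₀ v ∈ v.asIdeal ^ e v →
        ∀ (N : IntermediateField K F) [NumberField N], IsGalois K N →
          DescAt K N v (A : K) (B : K)) →
    PosP K F (fun p => ∀ v ∈ Sg, p.1 - A₀ v ∈ v.asIdeal ^ e v ∧ p.2 - B₀ v ∈ v.asIdeal ^ e v)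

theorem mainSig {K F : Type} [Field K] [NumberField K] [Field F] [Algebra K F]
    (h : H30ZO.AdmF K F) : MainSig K F := by
  intro Sg e A₀ B₀ h2 hcl
  have _ := h.gal
  obtain ⟨c, X₀, hc, h1⟩ := H30ZO.main_inf K F h.deg h.ram h.spl_inf h2 e A₀ B₀
    (fun v hv => (hcl v hv).1) (fun v hv => (hcl v hv).2)
  refine ⟨c, X₀, hc, fun X hX => ?_⟩
  obtain ⟨G, hG, hj, hcard⟩ := h1 X hX
  refine ⟨G, fun p hp => ?_, hj, hcard⟩
  obtain ⟨g1, g2, g3, g4, g5⟩ := hG p hp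
  exact ⟨g1, g3, ⟨g2, g5⟩, g4⟩

section Good

variable {K F : Type} [Field K] [NumberField K] [Field F] [Algebra K F]

theorem gd_irr {p : 𝓞 K × 𝓞 K} (h : Gd K F p) (t : K) :
    t ^ 3 + (p.1 : K) * t + (p.2 : K) ≠ 0 := by
  have hb : NumberField (⊥ : IntermediateField K F) := NumberField.of_module_finite K _
  have h1 := h.2 ⊥
  intro h0
  refine h1.noroot ?_ (algebraMap K (⊥ : IntermediateField K F) t) ?_
  · intro h2
    apply h.1
    apply FaithfulSMul.algebraMap_injective (𝓞 K) K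
    apply (algebraMap K (⊥ : IntermediateField K F)).injective
    rw [map_add, map_mul, map_mul, map_pow, map_pow, map_ofNat, map_ofNat, map_zero, map_add,
      map_mul, map_mul, map_pow, map_pow, map_ofNat, map_ofNat, map_zero]
    exact h2
  · rw [← map_pow, ← map_mul, ← map_add, ← map_add, h0, map_zero]

/-- The local condition is necessary at all primes. -/
theorem gd_loc [IsGalois K F]
    (hdeg : ∀ (N : IntermediateField K F) [NumberField N], IsGalois K N →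
      ∃ r : ℕ, Module.finrank K N = 2 ^ r) {p : 𝓞 K × 𝓞 K} (h : Gd K F p)
    (v : HeightOneSpectrum (𝓞 K)) : LocC K F v (p.1 : K) (p.2 : K) :=
  locC_of_descAt hdeg (gd_irr h) fun N _ _ => H30ZO.zo_loc h.1 h.2 N v

end Good

section Ideals

variable {K : Type} [Field K] [NumberField K]

/-- The exponent of a prime in an ideal. -/
theorem exists_exp {m : Ideal (𝓞 K)} (hm : m ≠ ⊥) : ∃ n : HeightOneSpectrum (𝓞 K) → ℕ,
    (∀ v, m ≤ v.asIdeal ^ n v) ∧
    (∀ x : 𝓞 K, (∀ v, m ≤ v.asIdeal → x ∈ v.asIdeal ^ n v) → x ∈ m) := by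
  have hm0 : m ≠ 0 := hm
  obtain ⟨n, hn⟩ : ∃ n : HeightOneSpectrum (𝓞 K) → ℕ,
      n = fun v => (Associates.mk v.asIdeal).count (Associates.mk m).factors := ⟨_, rfl⟩
  have hv : ∀ v, HeightOneSpectrum.maxPowDividing v m = v.asIdeal ^ n v := by
    intro v
    rw [hn]
    rfl
  have hfin := Ideal.finite_factors hm0
  have hsub : Function.mulSupport (fun v : HeightOneSpectrum (𝓞 K) =>
      HeightOneSpectrum.maxPowDividing v m) ⊆ (hfin.toFinset : Set (HeightOneSpectrum (𝓞 K))) := by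
    intro v hvs
    rw [Set.Finite.coe_toFinset]
    change v.asIdeal ∣ m
    rw [← Associates.count_ne_zero_iff_dvd hm0 v.irreducible]
    intro h0
    apply hvs
    change HeightOneSpectrum.maxPowDividing v m = 1
    rw [hv, hn]
    change v.asIdeal ^ (Associates.mk v.asIdeal).count (Associates.mk m).factors = 1
    rw [h0, pow_zero]
  have hprod : ∏ v ∈ hfin.toFinset, v.asIdeal ^ n v = m := by
    have h1 := Ideal.finprod_heightOneSpectrum_factorization hm0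
    rw [finprod_eq_prod_of_mulSupport_subset _ hsub] at h1
    rw [← Finset.prod_congr rfl fun v _ => hv v]
    exact h1
  have hinf := IsDedekindDomain.inf_pow_eq_prod_of_prime hfin.toFinset
    (fun v : HeightOneSpectrum (𝓞 K) => v.asIdeal) n (fun v _ => v.prime)
    (fun v _ w _ hne h => hne (HeightOneSpectrum.ext h))
  rw [hprod] at hinf
  refine ⟨n, fun v => ?_, fun x hx => ?_⟩
  · by_cases hvm : v ∈ hfin.toFinset
    · rw [← hinf]
      exact Finset.inf_le hvm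
    · have h0 : n v = 0 := by
        rw [Set.Finite.mem_toFinset] at hvm
        by_contra h1
        apply hvm
        change v.asIdeal ∣ m
        rw [← Associates.count_ne_zero_iff_dvd hm0 v.irreducible]
        rwa [hn] at h1
      rw [h0, pow_zero, Ideal.one_eq_top]
      exact le_top
  · rw [← hinf, Submodule.mem_finsetInf]
    intro v hvm
    rw [Set.Finite.mem_toFinset] at hvm
    exact hx v (Ideal.dvd_iff_le.1 hvm)

/-- A polynomial without roots is separable. -/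
theorem dsc_ne {a b : K} (h : ∀ t : K, t ^ 3 + a * t + b ≠ 0) : 4 * a ^ 3 + 27 * b ^ 2 ≠ 0 := by
  intro h0
  by_cases ha : a = 0
  · rw [ha] at h0
    have hb : b = 0 := by
      have h1 : (27 : K) * b ^ 2 = 0 := by linear_combination h0
      rcases mul_eq_zero.1 h1 with h2 | h2
      · norm_num at h2
      · exact pow_eq_zero_iff two_ne_zero |>.1 h2
    exact h 0 (by rw [ha, hb]; ring)
  · refine h (-3 * b / (2 * a)) ?_
    have h2 : (2 : K) ≠ 0 := two_ne_zero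
    field_simp
    linear_combination (-b) * h0

end Ideals

section Main

variable {K F : Type} [Field K] [NumberField K] [Field F] [Algebra K F] [IsGalois K F]

/-- The local conditions are sufficient. -/
theorem suff (hdeg : ∀ (N : IntermediateField K F) [NumberField N], IsGalois K N →
      ∃ r : ℕ, Module.finrank K N = 2 ^ r) (hmain : MainSig K F)
    {m : Ideal (𝓞 K)} (hm : m ≠ ⊥) (c : 𝓞 K × 𝓞 K)
    (h : ∀ v : HeightOneSpectrum (𝓞 K), (2 : 𝓞 K) ∈ v.asIdeal ∨ m ≤ v.asIdeal →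
      ∃ p : 𝓞 K × 𝓞 K, (∀ n : ℕ, m ≤ v.asIdeal ^ n → p.1 - c.1 ∈ v.asIdeal ^ n ∧
        p.2 - c.2 ∈ v.asIdeal ^ n) ∧ (∀ t : K, t ^ 3 + (p.1 : K) * t + (p.2 : K) ≠ 0) ∧
        LocC K F v (p.1 : K) (p.2 : K)) :
    PosP K F (fun p => p.1 - c.1 ∈ m ∧ p.2 - c.2 ∈ m) := by
  obtain ⟨n, hn1, hn3⟩ := exists_exp hm
  -- the set of primes
  have hfin : {v : HeightOneSpectrum (𝓞 K) | (2 : 𝓞 K) ∈ v.asIdeal ∨ m ≤ v.asIdeal}.Finite := by
    refine Set.Finite.union ?_ ?_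
    · obtain ⟨S, hS⟩ := H30CY.two_fin K
      refine S.finite_toSet.subset fun v hv => ?_
      exact (hS v).2 hv
    · refine (Ideal.finite_factors (I := m) hm).subset fun v hv => ?_
      exact Ideal.dvd_iff_le.2 hv
  obtain ⟨Sg, hSg⟩ : ∃ Sg : Finset (HeightOneSpectrum (𝓞 K)), ∀ v, v ∈ Sg ↔
      ((2 : 𝓞 K) ∈ v.asIdeal ∨ m ≤ v.asIdeal) := ⟨hfin.toFinset, fun v => hfin.mem_toFinset⟩
  have key : ∀ v : HeightOneSpectrum (𝓞 K), ∃ (e : ℕ) (A₀ B₀ : 𝓞 K), v ∈ Sg → n v ≤ e ∧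
      A₀ - c.1 ∈ v.asIdeal ^ n v ∧ B₀ - c.2 ∈ v.asIdeal ^ n v ∧ dsc A₀ B₀ ∉ v.asIdeal ^ e ∧
      ∀ A B : 𝓞 K, A - A₀ ∈ v.asIdeal ^ e → B - B₀ ∈ v.asIdeal ^ e →
        ∀ (N : IntermediateField K F) [NumberField N], IsGalois K N →
          DescAt K N v (A : K) (B : K) := by
    intro v
    by_cases hv : v ∈ Sg
    · obtain ⟨p, h1, h2, h3⟩ := h v ((hSg v).1 hv)
      have hd : dsc p.1 p.2 ≠ 0 := by
        intro h4
        apply dsc_ne h2
        have h5 := congrArg (algebraMap (𝓞 K) K) h4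
        unfold dsc at h5
        rw [map_add, map_mul, map_mul, map_pow, map_pow, map_ofNat, map_ofNat, map_zero] at h5
        exact h5
      obtain ⟨e, he1, he2⟩ := H36LG.descAt_open v hd
      refine ⟨e + n v, p.1, p.2, fun _ => ⟨Nat.le_add_left _ _, (h1 _ (hn1 v)).1,
        (h1 _ (hn1 v)).2, fun h4 => he1 (Ideal.pow_le_pow_right (Nat.le_add_right _ _) h4), ?_⟩⟩
      intro A B hA hB N _ hN
      exact he2 A B (Ideal.pow_le_pow_right (Nat.le_add_right _ _) hA)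
        (Ideal.pow_le_pow_right (Nat.le_add_right _ _) hB) N
        (descAt_of_locC hdeg h2 h3 N hN)
    · exact ⟨0, 0, 0, fun h => absurd h hv⟩
  choose e A₀ B₀ hk using key
  obtain ⟨c', X₀, hc', h1⟩ := hmain Sg e A₀ B₀ (fun v hv => (hSg v).2 (Or.inl hv))
    (fun v hv => (hk v hv).2.2.2)
  refine ⟨c', X₀, hc', fun X hX => ?_⟩
  obtain ⟨G, hG, hj, hcard⟩ := h1 X hX
  refine ⟨G, fun p hp => ?_, hj, hcard⟩
  obtain ⟨g1, g2, g3⟩ := hG p hp
  refine ⟨g1, ⟨hn3 _ fun v hv => ?_, hn3 _ fun v hv => ?_⟩, g3⟩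
  · have hv' := (hSg v).2 (Or.inr hv)
    obtain ⟨k1, k2, k3, -⟩ := hk v hv'
    have h4 := Ideal.pow_le_pow_right k1 (g2 v hv').1
    have h5 := Ideal.add_mem _ h4 k2
    rwa [sub_add_sub_cancel] at h5
  · have hv' := (hSg v).2 (Or.inr hv)
    obtain ⟨k1, k2, k3, -⟩ := hk v hv'
    have h4 := Ideal.pow_le_pow_right k1 (g2 v hv').2
    have h5 := Ideal.add_mem _ h4 k3
    rwa [sub_add_sub_cancel] at h5

/-- Nonempty sets. -/
theorem exists_of_posP {S : 𝓞 K × 𝓞 K → Prop} (h : PosP K F S) : ∃ p, S p ∧ Gd K F p := by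
  obtain ⟨c, X₀, hc, h1⟩ := h
  obtain ⟨G, hG, -, hcard⟩ := h1 (max X₀ 1) (le_max_left _ _)
  have h2 : (0 : 𝓞 K × 𝓞 K) ∈ Bx K (max X₀ 1) := by
    have h6 : (0 : ℝ) ≤ max X₀ 1 := le_max_of_le_right zero_le_one
    constructor
    · intro s
      have h7 : s (((0 : 𝓞 K × 𝓞 K).1 : 𝓞 K) : K) = 0 := by simp
      rw [h7, norm_zero]
      positivity
    · intro s
      have h7 : s (((0 : 𝓞 K × 𝓞 K).2 : 𝓞 K) : K) = 0 := by simp
      rw [h7, norm_zero]
      positivity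
  have h3 : 0 < (Bx K (max X₀ 1)).ncard := by
    rw [Set.ncard_pos (H76PP.Bx_fin K _)]
    exact ⟨0, h2⟩
  have h4 : 0 < G.card := by
    have h5 : (0 : ℝ) < c * ((Bx K (max X₀ 1)).ncard : ℝ) := by positivity
    exact_mod_cast h5.trans_le hcard
  obtain ⟨p, hp⟩ := Finset.card_pos.1 h4
  exact ⟨p, (hG p hp).2.1, (hG p hp).2.2.1⟩

/-- The local-global principle and the zero-one law. -/
theorem main (hdeg : ∀ (N : IntermediateField K F) [NumberField N], IsGalois K N →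
      ∃ r : ℕ, Module.finrank K N = 2 ^ r) (hmain : MainSig K F)
    {m : Ideal (𝓞 K)} (hm : m ≠ ⊥) (c : 𝓞 K × 𝓞 K) :
    ((∃ p : 𝓞 K × 𝓞 K, (p.1 - c.1 ∈ m ∧ p.2 - c.2 ∈ m) ∧ Gd K F p) ↔
      PosP K F (fun p => p.1 - c.1 ∈ m ∧ p.2 - c.2 ∈ m)) ∧
    ((∃ p : 𝓞 K × 𝓞 K, (p.1 - c.1 ∈ m ∧ p.2 - c.2 ∈ m) ∧ Gd K F p) ↔
      ∀ v : HeightOneSpectrum (𝓞 K), (2 : 𝓞 K) ∈ v.asIdeal ∨ m ≤ v.asIdeal →
      ∃ p : 𝓞 K × 𝓞 K, (∀ n : ℕ, m ≤ v.asIdeal ^ n → p.1 - c.1 ∈ v.asIdeal ^ n ∧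
        p.2 - c.2 ∈ v.asIdeal ^ n) ∧ (∀ t : K, t ^ 3 + (p.1 : K) * t + (p.2 : K) ≠ 0) ∧
        LocC K F v (p.1 : K) (p.2 : K)) := by
  have h1 : (∃ p : 𝓞 K × 𝓞 K, (p.1 - c.1 ∈ m ∧ p.2 - c.2 ∈ m) ∧ Gd K F p) →
      ∀ v : HeightOneSpectrum (𝓞 K), (2 : 𝓞 K) ∈ v.asIdeal ∨ m ≤ v.asIdeal →
      ∃ p : 𝓞 K × 𝓞 K, (∀ n : ℕ, m ≤ v.asIdeal ^ n → p.1 - c.1 ∈ v.asIdeal ^ n ∧
        p.2 - c.2 ∈ v.asIdeal ^ n) ∧ (∀ t : K, t ^ 3 + (p.1 : K) * t + (p.2 : K) ≠ 0) ∧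
        LocC K F v (p.1 : K) (p.2 : K) := by
    rintro ⟨p, ⟨hA, hB⟩, hp⟩ v -
    exact ⟨p, fun n hn => ⟨hn hA, hn hB⟩, gd_irr hp, gd_loc hdeg hp v⟩
  refine ⟨⟨fun h => suff hdeg hmain hm c (h1 h), fun h => ?_⟩, ⟨h1, fun h => ?_⟩⟩
  · obtain ⟨p, h2, h3⟩ := exists_of_posP h
    exact ⟨p, h2, h3⟩
  · obtain ⟨p, h2, h3⟩ := exists_of_posP (suff hdeg hmain hm c h)
    exact ⟨p, h2, h3⟩

/-- A polynomial without roots modulo a prime has no roots. -/
theorem noroot_K {A B : 𝓞 K} {w : HeightOneSpectrum (𝓞 K)} (h : H30PN.NoRt K w A B) (t : K) :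
    t ^ 3 + (A : K) * t + (B : K) ≠ 0 := by
  intro h0
  have hmon : (Polynomial.X ^ 3 + (Polynomial.C A * Polynomial.X + Polynomial.C B) :
      Polynomial (𝓞 K)).Monic := by
    refine Polynomial.monic_X_pow_add ?_
    exact Polynomial.degree_linear_le.trans_lt (by norm_num)
  have hint : IsIntegral (𝓞 K) t := by
    refine ⟨_, hmon, ?_⟩
    rw [Polynomial.eval₂_add, Polynomial.eval₂_add, Polynomial.eval₂_mul, Polynomial.eval₂_pow,
      Polynomial.eval₂_X, Polynomial.eval₂_C, Polynomial.eval₂_C]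
    linear_combination h0
  obtain ⟨y, rfl⟩ := IsIntegrallyClosed.isIntegral_iff.1 hint
  apply h y
  have h1 : y ^ 3 + A * y + B = 0 := by
    apply FaithfulSMul.algebraMap_injective (𝓞 K) K
    rw [map_add, map_add, map_mul, map_pow, map_zero]
    exact h0
  rw [h1]
  exact Ideal.zero_mem _

/-- A pair with an irreducible polynomial which satisfies the local condition. -/
theorem exists_irr (h : H30ZO.AdmF K F) {v : HeightOneSpectrum (𝓞 K)}
    (hl : H30ZO.LocOK K F v) : ∃ p : 𝓞 K × 𝓞 K, (∀ t : K, t ^ 3 + (p.1 : K) * t + (p.2 : K) ≠ 0) ∧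
      LocC K F v (p.1 : K) (p.2 : K) := by
  obtain ⟨a, b, hd, hab⟩ := hl
  choose e he1 he2 using fun v : HeightOneSpectrum (𝓞 K) => H36LG.descAt_open v hd
  obtain ⟨S₂, hS₂⟩ := H30CY.two_fin K
  obtain ⟨w, -, hw⟩ := h.spl_inf.exists_notMem_finset (insert v S₂)
  obtain ⟨m, E, A₀, B₀, -, -, -, -, hcl⟩ := H30ZO.exists_cls (S := insert v S₂) (R := {w})
    (fun v' hv' => Finset.mem_insert_of_mem ((hS₂ v').2 hv'))
    (fun v' hv' => by
      rw [Finset.mem_singleton] at hv'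
      rw [hv']
      exact hw) e (fun _ => a) (fun _ => b) (fun v' _ => he1 v')
  obtain ⟨h1, h2⟩ := hcl A₀ B₀ (by rw [sub_self]; exact Ideal.zero_mem _)
    (by rw [sub_self]; exact Ideal.zero_mem _)
  obtain ⟨h3, h4⟩ := h1 v (Finset.mem_insert_self _ _)
  have hirr := noroot_K (h2 w (Finset.mem_singleton_self w))
  exact ⟨(A₀, B₀), hirr, locC_of_descAt h.deg hirr fun N _ hN => he2 v A₀ B₀ h3 h4 N (hab N hN)⟩

end Main

end H36ZO
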